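import Pool.Agent.R819.Cross

/-!
# Compact subspaces of `S_cro (X × Y)` are metrizable for separable `T₁` spaces `X`, `Y`

The cross-open topology is finer than the topology of pointwise convergence, and a separately
continuous function is determined by its values on `D × E` for countable dense sets `D`, `E`.
-/

set_option autoImplicit false

open Set Topology TopologicalSpace

namespace Pool.Agent.Results.MP_63c1c3_gt.CrossOpen

open Pool.Agent.R819.Cross

universe u v

/-- **For all separable `T₁` spaces `X` and `Y`, in particular for all Polish spaces, every compact
subspace of `S_cro (X × Y)` is metrizable.** -/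
theorem result : ∀ (X : Type u) (Y : Type v) [TopologicalSpace X] [TopologicalSpace Y]
    [T1Space X] [T1Space Y] [SeparableSpace X] [SeparableSpace Y] (K : Set (Scro X Y)),
    IsCompact K → MetrizableSpace K := by
  intro X Y _ _ _ _ _ _ K hK
  have : CompactSpace K := isCompact_iff_compactSpace.1 hK
  exact cro (fun k : K => k.1) IsEmbedding.subtypeVal

end Pool.Agent.Results.MP_63c1c3_gt.CrossOpen
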